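import Pool.Agent.U569.APL.MonoT
import Pool.Agent.Results.MP_1e3e9c_ag.AlmostAllMonomials

/-!
# Hyperbolicity and canonical classes for the tuples of monomials near almost all members of families formed from arbitrary sets

Let `I 1, …, I s` be nonempty sets of variables among `x_0, …, x_n`, and `r = ∑ (|I i| - 1)` (`fdim I`). The tuples of monomials
`a 1, …, a s` of degree `d`, `a i` in the variables from `I i`, are given by `r + 1` coordinates: the degree `d`, and the exponents in
`a i` of all the variables from `I i` but one. The starting result `AlmostAllMonomials` says that the proportion of the tuples of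
degree `d` with the property `Good` below tends to `1` for `d → ∞`. Here: for all `ε > 0`, all large moduli `q` and all families of
vectors of `r + 1` residues modulo `q` with small Fourier coefficients (only finitely many of them need to be small,
`SmallCoefficients L η`, where `L` and `η` depend on `ε` and on the `I i` only), and for all but at most `ε |S|` members
`v = c + y` of the family `S`, the property `Good` holds for ALL tuples of monomials of all degrees whose coordinates are at a
distance of at most `κ |v 0|` from those of `v` (`v 0` stands for the degree), where `κ > 0` depends on `ε` and on the `I i` only: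
a cube of positive relative size around the member (`NearMost`).

Examples (`FlatExamples`), with Fourier coefficients at most `P ^ (-δ / 8)` modulo a large prime `P`: the values of bilinear maps on
ARBITRARY sets, all products of elements of two ARBITRARY sets in the field of `P ^ (r + 1)` elements, both plus arbitrary functions
of the one and of the other element, polynomials on products of ARBITRARY sets, polynomials on subgroups.

`Good`: for all the projective varieties given by linear combinations of the monomials and of the `x_j ^ d` hyperbolicity and the
conditions of the starting file on the canonical classes of the closed subvarieties are equivalent, with the combinatorial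
criterion.

Proof: the tuples are good if certain determinants, which are affine in each of the free exponents, are not small. The number of
the points of a grid where these functions are small is bounded in `Pool/Agent/U449/BV/PW.lean` (helper449), and each small cube
contains few members of the family (`Pool/Agent/U569/APL/Box.lean`, `Mono.lean`, `MonoT.lean`).
-/

set_option autoImplicit false

namespace Pool.Agent.Results.MP_1e3e9c_ag.ArbitrarySets

open MvPolynomial Pool.Agent.W602.GT Pool.Agent.H159R3.GGLLog Pool.Agent.R869.Wd
open Pool.Agent.R505.KA
open Pool.Agent.Y190.PH (Brody)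
open Pool.Agent.Results.MP_1e3e9c_ag.AlmostAllMonomials
open Pool.Agent.U569.APL (NearMost FlatExamples nearMost_typI flatExamples)

/-- The property of the starting result: for all projective varieties `X` given by `m` linear combinations of the monomials `a i` and
of the `x_j ^ d` the conditions in `Equivalent` are equivalent, and `X` and all varieties near `X` are hyperbolic and all closed
subvarieties of `X` of positive dimension have a big canonical class if the coefficient vectors are in general position and the
`I i` are well spread; for hypersurfaces, `LooseCriterion`. -/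
def Good {n s : ℕ} (I : Fin s → Finset (Fin (n + 1))) (d : ℕ) (a : Fin s → (Fin (n + 1) →₀ ℕ)) : Prop :=
  (∀ (m : ℕ) (F : Fin m → MvPolynomial (Fin (n + 1)) ℂ),
    (∀ e, (F e).support ⊆ withPowers d a) → Equivalent F ∧
      (GenCoeffs F (withPowers d a) → (∀ J, Spread I m J) →
        Brody F ∧ HyperbolicNear F ∧ AllSub (fun K _ _ w => GeneralType ℂ K w) F)) ∧
  ∀ F : MvPolynomial (Fin (n + 1)) ℂ, F.support ⊆ withPowers d a → LooseCriterion F

theorem good_of_typ {n s : ℕ} {I : Fin s → Finset (Fin (n + 1))} {d : ℕ} {a : Fin s → (Fin (n + 1) →₀ ℕ)}
    (hty : TypI I d a) : Good I d a := by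
  classical
  obtain ⟨A, hA⟩ := hty.bound
  obtain ⟨s', N, hg⟩ := hty.good
  have heq : ∀ (m : ℕ) (F : Fin m → MvPolynomial (Fin (n + 1)) ℂ),
      (∀ e, (F e).support ⊆ withPowers d a) → Equivalent F := fun m F hFT =>
    main (hg.sys hFT ∅) (hA ℂ m F ∅ hFT).1
  refine ⟨fun m F hFT => ⟨heq m F hFT, fun hgc hsp => ?_⟩, fun F hF => ⟨?_, fun J => ?_⟩⟩
  · have h1 : Equivalent F := heq m F hFT
    have h2 : AllGeneralType F := hty.all hFT hgc hsp
    have h3 : Brody F := (h1.out 0 1).2 h2
    exact ⟨h3, (h1.out 0 6).1 h3, h2⟩
  · have h1 : Equivalent (fun _ : Fin 1 => F) := heq 1 _ fun _ => hF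
    rw [hty.loose_general hF]
    exact h1.out 0 1
  · have hform : ∀ e : Fin 1, IsForm ((fun _ : Fin 1 => F) e) :=
      fun e => (hg.sys (F := fun _ : Fin 1 => F) (fun _ => hF) ∅).form e
    have h1 := hty.crit hF J
    have h2 := hty.critSub hF (U := ∅) (J := J) fun j hj => absurd hj (Set.notMem_empty j)
    tfae_have 1 ↔ 2 := h1.out 0 3
    tfae_have 3 → 1 := by
      rw [h2]
      rintro ⟨K, i1, i2, w, y, hw, hy, hyJ, hgt⟩
      exact ⟨K, i1, i2, w, y, hw, subVar_iff.2 hy, hyJ, fun h3 => hgt ((general_iff y).1 h3)⟩
    tfae_have 1 → 6 := by
      intro h3
      obtain ⟨x, b, hx, hb, hO⟩ := (h1.out 0 1).1 h3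
      obtain ⟨K, i1, i2, y, hy, hr, hyJ⟩ := ruled_of_orbit hform hx hb hO
      exact ⟨K, i1, i2, 1, y, le_rfl, hy, hyJ, hr⟩
    tfae_have 6 → 5 := fun h3 => h3.imp fun K _ _ w hw hr => by
      obtain ⟨C, σ, k1, k2⟩ := hr
      exact not_psef_of hw C k1 k2
    tfae_have 5 → 4 := fun h3 => h3.imp fun K _ _ w hw hp hk => hp (psef_of_kodGe hk)
    tfae_have 4 → 3 := fun h3 => h3.imp fun K _ _ w hw hp hk => hp (kod_of_general hk)
    tfae_finish

/-- **Theorem.** For all sets `I i` of variables the property `Good` holds for ALL tuples of monomials near almost all members of
the families with small Fourier coefficients (`NearMost`); for all `R`, families of vectors of `R` residues with Fourier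
coefficients at most `q ^ (-κ)` have this property for all large `q`, and the families formed from arbitrary sets are such
families (`FlatExamples`). -/
theorem result : (∀ (n s : ℕ) (I : Fin s → Finset (Fin (n + 1))), NearMost I (Good I)) ∧ ∀ R : ℕ, FlatExamples R :=
  ⟨fun _ _ _ => nearMost_typI fun _ _ h => good_of_typ h, flatExamples⟩

end Pool.Agent.Results.MP_1e3e9c_ag.ArbitrarySets
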