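import Pool.Agent.U192.TF.Genus
import Pool.Agent.R882.HYDefs

/-!
# Kobayashi's conjecture for varieties dominated by the product of a variety and a curve

Let `X₁` be a projective variety over `ℂ` of dimension `d`, `C` a curve of any genus, and let
`X₁ × C ⇢ W` be a dominant rational map of finite degree to a projective variety `W`. It need not be
related to the product structure, and it need not be the quotient by a group. Let `X₁ ⇢ X` be a
dominant rational map of finite degree (for instance the identity), let `V` be the image of `X₁ × C` in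
`W × X` and `V₁` the one in `W × X₁`. Let `T` be a finite set of rational functions on `X` such that `1`
and the functions in `T` generate the function field `ℂ(V)` as a vector space over `ℂ(W)` (they separate
the points of `X` below a general point of `W`), and let `H` be the divisor of the poles of the
functions in `T`.

**Theorem.** Suppose that for some `m ≥ 1` there are `a + 1` sections of `m (K_X - 2 H)` (on all models,
see `IsSection`) with algebraically independent ratios: `κ(X, K_X - 2 H) ≥ a`.

1. If the fibres of `V₁ → X₁` (more precisely the geometric generic fibre) are neither rational nor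
   elliptic curves, then `κ(W) ≥ a + 1`. Otherwise `W` is covered by a `d`-dimensional family of
   rational or elliptic curves, and it is not of general type.
2. If `W` has no rational curves, in particular if `W` is Brody hyperbolic, then `κ(W) ≥ a`, and
   `κ(W) ≥ a + 1` if `W` is not covered by a `d`-dimensional family of elliptic curves.
3. Let `K_X - 2 H` be big, `a = d = dim X`. Then `W` is of general type if and only if it is not covered
   by a `d`-dimensional family of rational or elliptic curves.

On a Kobayashi hyperbolic variety there are no rational and no elliptic curves. So `κ(W) ≥ a + 1` if `W`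
is hyperbolic, and if `K_X - 2 H` is big then `K_W` is big (for a resolution of `W` if `W` is singular);
if `W` is also smooth then `K_W` is ample, as Kobayashi's conjecture predicts, because a big canonical
divisor is ample if there are no rational curves (cone theorem, base point free theorem). These
standard facts are not part of the Lean proof.

The starting file `MP_5b1cbc_ag.ProductWithCurveLang` treats the case `X = X₁` if the *canonical* forms
of `X` separate `2 δ` general points (`δ` the degree of `V` over `W`), which needs `p_g(X) ≥ 2 δ`. Here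
there are pluricanonical forms and a linear system which separates only the `δ` points over a
general point of `W`, and `a` may be smaller than `d`.

Proof. Let `τ_φ` be the traces on `V₁` of the products of the differentials `φ` on `C` with
`dx_1 ... dx_d`, for coordinates `x` on `X`. If the `τ_φ` are all multiples of one of them by functions
on `X₁` then, by duality, the geometric generic fibre of `V₁ → X₁` has genus at most one (library
statement `N145.SX.cov`). Otherwise there are `τ_φ ≠ 0` and `τ_ψ` whose ratio is transcendental over the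
functions on `X₁`. The products of `m` factors `τ` and a section `θ` of `m (K_X - 2 H)` are `m`-canonical
forms on `V₁`, and their norms to `W`, multiplied by a power of the discriminant of a basis of `ℂ(V)`
over `ℂ(W)` in `T`, are regular pluricanonical forms on `W` (see `MP_e06174_ag.ProductsWithCurves`, by
the same agent); so `κ(W) ≥ a + 1`. The library statements on the trace relations are due to helper145,
helper603, helper279, helper459, helper273, helper160 and others, rational curves on uniruled
projective varieties to helper882.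

`K` is the function field of `X₁ × C`, the compositum of the function fields `E₁` of `X₁` and `C`; `E` is
the one of `X`, `L` the one of `W`; `x` is the generic point of `W` in homogeneous coordinates.
-/

set_option autoImplicit false
set_option linter.overlappingInstances false
set_option maxHeartbeats 4000000
set_option synthInstance.maxHeartbeats 400000

open FF Module IntermediateField Pool.Agent Pool.Agent.W602.GT
open Pool.Agent.R882.HY (NoRationalCurve BrodyHyperbolic)

namespace Pool.Agent.Results.MP_1e3e9c_ag.ProductsWithCurves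

/-- The order of the poles along `v` of the functions in the finite set `T`: the multiplicity at `v`
of `H`, the smallest effective divisor with `H + (t) ≥ 0` for all `t ∈ T`, `t ≠ 0`. -/
noncomputable def poleOrder {E : Type} [Field E] [Algebra ℂ E] (T : Finset E) (v : Place ℂ E) : ℕ :=
  T.sup fun z => (-v.ord z).toNat

/-- `θ` is a section of `m (K_X - 2 H)`, where `E` is the function field of `X`, of dimension `d`, and
`H` is the divisor of the poles of the functions in `T`: an `m`-canonical form of order at least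
`2 m H_v` along all prime divisors `v` over `X`. -/
def IsSection {E : Type} [Field E] [Algebra ℂ E] (d m : ℕ) (T : Finset E)
    (θ : (Fin d → Derivation ℂ E E) → E) : Prop :=
  IsPluri m θ ∧ ∀ v : Place ℂ E, Divisorial d v → ∀ G : Fin d → Derivation ℂ E E,
    (∀ i, DerReg v (G i)) → θ G = 0 ∨ 2 * (m : ℤ) * poleOrder T v ≤ v.ord (θ G)

/-- `κ(X, K_X - 2 H) ≥ a`: for some `m ≥ 1` there are `a + 1` sections of `m (K_X - 2 H)` with
algebraically independent ratios. -/
def IsPositive {E : Type} [Field E] [Algebra ℂ E] (d a : ℕ) (T : Finset E) : Prop :=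
  ∃ m : ℕ, 1 ≤ m ∧ ∃ θ : Fin (a + 1) → (Fin d → Derivation ℂ E E) → E,
    (∀ j, IsSection d m T (θ j)) ∧ ∃ G : Fin d → Derivation ℂ E E, θ 0 G ≠ 0 ∧
      AlgebraicIndependent ℂ fun j : Fin a => θ j.succ G / θ 0 G

/-- `1` and the functions in `T` generate the field `L(E)` as a vector space over `L`. Here `K` is the
function field of `X₁ × C`, `E` the one of `X`, `L` the one of `W`, and so `L(E)` the one of the image
`V` of `X₁ × C` in `W × X`. -/
def Separates {K : Type} [Field K] [Algebra ℂ K] (L : Type) [Field L] [Algebra L K]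
    (E : IntermediateField ℂ K) (T : Finset E) : Prop :=
  ∀ z ∈ IntermediateField.adjoin L (E : Set K),
    z ∈ Submodule.span L (insert 1 ((fun t : E => (t : K)) '' (T : Set E)))

/-- `κ(W) ≥ a`: for some `m ≥ 1` there are `a + 1` regular `m`-canonical forms on `W` (regular at all
prime divisors over `W`) with algebraically independent ratios. Here `L` is the function field of `W`, of
dimension `n`. -/
def KodairaGe (L : Type) [Field L] [Algebra ℂ L] (n a : ℕ) : Prop :=
  ∃ m : ℕ, 1 ≤ m ∧ ∃ ω : Fin (a + 1) → (Fin n → Derivation ℂ L L) → L,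
    (∀ j, IsPluri m (ω j) ∧ ∀ P : Place ℂ L, Divisorial n P → RegAt P (ω j)) ∧
    ∃ D : Fin n → Derivation ℂ L L, ω 0 D ≠ 0 ∧
      AlgebraicIndependent ℂ fun j : Fin a => ω j.succ D / ω 0 D

/-- The curve with the function field `F` over the algebraically closed field `Λ` is rational:
`F = Λ(t)`. -/
def IsRational (Λ F : Type) [Field Λ] [Field F] [Algebra Λ F] : Prop := ∃ t : F, Λ⟮t⟯ = ⊤

/-- The curve with the function field `F` over the algebraically closed field `Λ` is elliptic: it has a
vector field `D` without zeros and poles, i.e. `D t` is a unit for the uniformizers `t` at all points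
`w`. -/
def IsElliptic (Λ F : Type) [Field Λ] [Field F] [Algebra Λ F] : Prop :=
  ∃ D : Derivation Λ F F, ∀ (w : Place Λ F) (t : F), w.ord t = 1 → D t ≠ 0 ∧ w.ord (D t) = 0

/-- The variety `W` with the function field `L` is covered by a `d`-dimensional family of curves with
the property `Q`: there are an algebraically closed field `Λ` of transcendence degree `d` (the
algebraic closure of the function field of the base of the family), a curve over `Λ` with function
field `F` (the geometric generic curve of the family) with the property `Q`, and an embedding of `L`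
into `F` (the dominant map from the total space to `W`). -/
def IsCoveredBy (Q : ∀ (Λ F : Type) [Field Λ] [Field F] [Algebra Λ F], Prop) (L : Type) [Field L]
    [Algebra ℂ L] (d : ℕ) : Prop :=
  ∃ (Λ F : Type) (_ : Field Λ) (_ : Field F) (_ : Algebra ℂ Λ) (_ : Algebra ℂ F)
    (_ : Algebra Λ F) (_ : IsScalarTower ℂ Λ F) (_ : IsAlgClosed Λ) (_ : IsFF Λ F),
    Algebra.trdeg ℂ Λ = d ∧ Q Λ F ∧ Nonempty (L →ₐ[ℂ] F)

/-- The geometric generic fibre of `V₁ → X₁` is a rational or elliptic curve. Here `K` is the function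
field of `X₁ × C`, `E₁` the one of `X₁` and `L` the one of `W`, so that `L(E₁)` is the one of the image
`V₁` of `X₁ × C` in `W × X₁`. There are an algebraic closure `Λ` of `E₁` and a curve over `Λ` with
function field `F`, generated by the image of an embedding `ψ` of `L(E₁)` over `E₁` (so `F` is the
function field of the geometric generic fibre), which is rational or elliptic. -/
def HasRationalOrEllipticFibres {K : Type} [Field K] [Algebra ℂ K] (L : Type) [Field L] [Algebra L K]
    (E₁ : IntermediateField ℂ K) : Prop :=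
  ∃ (Λ F : Type) (_ : Field Λ) (_ : Field F) (_ : Algebra E₁ Λ) (_ : Algebra Λ F)
    (_ : IsAlgClosed Λ) (_ : Algebra.IsAlgebraic E₁ Λ) (_ : IsFF Λ F)
    (ψ : IntermediateField.adjoin L (E₁ : Set K) →+* F),
    (∀ e : E₁, ∀ z : IntermediateField.adjoin L (E₁ : Set K), (z : K) = e →
      ψ z = algebraMap Λ F (algebraMap E₁ Λ e)) ∧
    IntermediateField.adjoin Λ (Set.range ψ) = ⊤ ∧ (IsRational Λ F ∨ IsElliptic Λ F)

theorem conv {E : Type} [Field E] [Algebra ℂ E] {d m : ℕ} {T : Finset E}
    {θ : (Fin d → Derivation ℂ E E) → E} (h : IsSection d m T θ) :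
    ∀ v : Place ℂ E, Divisorial d v → ∀ G : Fin d → Derivation ℂ E E,
      (∀ i, DerReg v (G i)) → θ G = 0 ∨ ∀ t : E, (t = 1 ∨ t ∈ T) → t ≠ 0 →
        (0 : ℤ) ≤ v.ord (θ G) + 2 * m * v.ord t := by
  intro v hv G hG
  rcases h.2 v hv G hG with h1 | h1
  · exact Or.inl h1
  refine Or.inr fun t ht _ => ?_
  have h2 : -v.ord t ≤ poleOrder T v := by
    rcases ht with rfl | ht
    · rw [v.ord_one, neg_zero]
      exact Int.natCast_nonneg _
    · have h3 : (-v.ord t).toNat ≤ poleOrder T v :=
        Finset.le_sup (f := fun z => (-v.ord z).toNat) ht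
      have h4 := Int.self_le_toNat (-v.ord t)
      exact h4.trans (by exact_mod_cast h3)
  have h3 := mul_le_mul_of_nonneg_left h2 (by positivity : (0 : ℤ) ≤ 2 * m)
  linarith

theorem glo_iff {Λ F : Type} [Field Λ] [Field F] [Algebra Λ F] [CharZero Λ] [IsAlgClosed Λ]
    [IsFF Λ F] : N145.SX.GLO Λ F ↔ IsRational Λ F ∨ IsElliptic Λ F := by
  unfold IsElliptic
  simp only [N145.SX.flat_iff]
  exact ⟨N145.SX.flat_of_glo, N145.SX.glo_of_flat⟩

theorem cover_iff (L : Type) [Field L] [Algebra ℂ L] (m : ℕ) :
    N145.SX.Cov1 L m ↔ IsCoveredBy (fun Λ F _ _ _ => IsRational Λ F ∨ IsElliptic Λ F) L m := by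
  constructor
  · rintro ⟨Λ, F, i1, i2, i3, i4, i5, i6, i7, i8, h1, h2, h3⟩
    have hch : CharZero Λ := charZero_of_injective_algebraMap (algebraMap ℂ Λ).injective
    exact ⟨Λ, F, i1, i2, i3, i4, i5, i6, i7, i8, h1, glo_iff.1 h2, h3⟩
  · rintro ⟨Λ, F, i1, i2, i3, i4, i5, i6, i7, i8, h1, h2, h3⟩
    have hch : CharZero Λ := charZero_of_injective_algebraMap (algebraMap ℂ Λ).injective
    exact ⟨Λ, F, i1, i2, i3, i4, i5, i6, i7, i8, h1, glo_iff.2 h2, h3⟩

theorem uniruled_of_rational {L : Type} [Field L] [Algebra ℂ L] [Algebra.EssFiniteType ℂ L] {d : ℕ}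
    (hL : Algebra.trdeg ℂ L = (d + 1 : ℕ)) {Λ F : Type} [Field Λ] [Field F] [Algebra ℂ Λ]
    [Algebra ℂ F] [Algebra Λ F] [IsScalarTower ℂ Λ F] [IsAlgClosed Λ] [IsFF Λ F]
    (hΛ : Algebra.trdeg ℂ Λ = d) (h : IsRational Λ F) (φ : L →ₐ[ℂ] F) :
    W619.PQ.IsUniruled ℂ L (d + 1) := by
  obtain ⟨s, hs⟩ := h
  have hst : Transcendental Λ s := by
    intro halg
    have h1 : Algebra.trdeg Λ F = 1 := IsFF.trdeg
    have h2 : Algebra.trdeg Λ F = 0 := by
      rw [trdeg_eq_zero_iff]
      have h3 : Algebra.IsAlgebraic Λ Λ⟮s⟯ :=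
        IntermediateField.isAlgebraic_adjoin_simple halg.isIntegral
      rw [hs] at h3
      exact (IntermediateField.topEquiv (F := Λ) (E := F)).isAlgebraic_iff.1 h3
    rw [h2] at h1
    exact zero_ne_one h1
  obtain ⟨M, i1, i2, ψ, h1, h2, -⟩ := N145.PL.a1 d L Λ F hL hΛ φ s hst
    (fun e => by rw [hs]; exact IntermediateField.mem_top) (fun _ => False)
    (fun _ _ _ _ _ h => h.elim)
  exact ⟨M, i1, i2, h1, h2, ⟨ψ⟩⟩

section

variable {K : Type} [Field K] [Algebra ℂ K] {L : Type} [Field L] [Algebra ℂ L] [Algebra L K]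
  [IsScalarTower ℂ L K] {E₁ : IntermediateField ℂ K}

theorem fib_of_geo (h : N145.SX.GeoFib (U192.TF.NN L E₁) (U192.TF.EN L E₁)) :
    HasRationalOrEllipticFibres L E₁ := by
  obtain ⟨Λ, F, iΛ, iF, iNΛ, iNF, iΛF, iT, iC, ialg, iFF, ψ, hgen, hglo⟩ := h
  let ι : E₁ →+* U192.TF.EN L E₁ :=
    { toFun := fun e => ⟨⟨(e : K), IntermediateField.subset_adjoin L _ e.2⟩, e.2⟩
      map_one' := rfl
      map_mul' := fun _ _ => rfl
      map_zero' := rfl
      map_add' := fun _ _ => rfl }
  let aΛ : Algebra E₁ Λ := ((algebraMap (U192.TF.EN L E₁) Λ).comp ι).toAlgebra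
  have hch : CharZero (U192.TF.EN L E₁) :=
    charZero_of_injective_algebraMap (algebraMap ℂ (U192.TF.EN L E₁)).injective
  have hch' : CharZero Λ :=
    charZero_of_injective_algebraMap (algebraMap (U192.TF.EN L E₁) Λ).injective
  refine ⟨Λ, F, iΛ, iF, aΛ, iΛF, iC, ⟨fun z => ?_⟩, iFF, ψ.toRingHom, fun e z hz => ?_, hgen,
    glo_iff.1 hglo⟩
  · obtain ⟨p, hp0, hp⟩ := ialg.isAlgebraic z
    let κ : U192.TF.EN L E₁ →+* E₁ :=
      { toFun := fun w => ⟨((w : U192.TF.NN L E₁) : K), w.2⟩
        map_one' := rfl
        map_mul' := fun _ _ => rfl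
        map_zero' := rfl
        map_add' := fun _ _ => rfl }
    refine ⟨p.map κ, (Polynomial.map_ne_zero_iff κ.injective).2 hp0, ?_⟩
    rw [Polynomial.aeval_def, Polynomial.eval₂_map]
    exact hp
  · have h1 : z = algebraMap (U192.TF.EN L E₁) (U192.TF.NN L E₁) (ι e) := Subtype.ext hz
    have h2 := ψ.commutes (ι e)
    rw [← h1, IsScalarTower.algebraMap_apply (U192.TF.EN L E₁) Λ F] at h2
    exact h2

theorem cov_of_fib {d : ℕ} (hd : Algebra.trdeg ℂ E₁ = d) (h : HasRationalOrEllipticFibres L E₁) :
    IsCoveredBy (fun Λ F _ _ _ => IsRational Λ F ∨ IsElliptic Λ F) L d := by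
  obtain ⟨Λ, F, iΛ, iF, iEΛ, iΛF, iC, ialg, iFF, ψ, hψ, -, hQ⟩ := h
  let a1 : Algebra ℂ Λ := ((algebraMap E₁ Λ).comp (algebraMap ℂ E₁)).toAlgebra
  let a2 : Algebra ℂ F := ((algebraMap Λ F).comp (algebraMap ℂ Λ)).toAlgebra
  have t1 : IsScalarTower ℂ Λ F := IsScalarTower.of_algebraMap_eq fun c => rfl
  have t2 : IsScalarTower ℂ E₁ Λ := IsScalarTower.of_algebraMap_eq fun c => rfl
  refine ⟨Λ, F, iΛ, iF, a1, a2, iΛF, t1, iC, iFF, ?_, hQ,
    ⟨⟨ψ.comp (algebraMap L (IntermediateField.adjoin L (E₁ : Set K))), fun c => ?_⟩⟩⟩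
  · have h1 := trdeg_add_eq ℂ E₁ (A := Λ)
    have h2 : Algebra.trdeg E₁ Λ = 0 := by
      rw [trdeg_eq_zero_iff]
      exact ialg
    rw [h2, add_zero, hd] at h1
    exact h1.symm
  · refine hψ (algebraMap ℂ E₁ c) _ ?_
    change algebraMap L K (algebraMap ℂ L c) = algebraMap ℂ K c
    exact (IsScalarTower.algebraMap_apply ℂ L K c).symm

end

/-- **Theorem.** Let `K` be the function field of the product of a variety with function field `E₁`, of
dimension `d`, and of a curve with function field `C`; let `E ⊆ E₁` be a subfield of the same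
transcendence degree, the function field of `X`, and `L ⊆ K` the function field of a variety `W`, the
extension being finite. Let `T ⊆ E` be a finite set of functions which separates the points of `X`
below a general point of `W`, and let `κ(X, K_X - 2 H) ≥ a`.
If the geometric generic fibre of `V₁ → X₁` is neither rational nor elliptic, then `κ(W) ≥ a + 1`;
otherwise `W` is covered by a `d`-dimensional family of rational or elliptic curves, and then it is not
of general type. For `a = d`: `W` is of general type if and only if it is not covered by such a family.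
If `W` is projective with the generic point `x`, and if there are no rational curves on `W`, or if `W`
is Brody hyperbolic, then `κ(W) ≥ a`, and `κ(W) ≥ a + 1` if `W` is not covered by a `d`-dimensional
family of elliptic curves. -/
theorem result (K : Type) [Field K] [Algebra ℂ K] [Algebra.EssFiniteType ℂ K] (d : ℕ)
    (E E₁ C : IntermediateField ℂ K) (hE : Algebra.trdeg ℂ E = d) (hE₁ : Algebra.trdeg ℂ E₁ = d)
    (hC : Algebra.trdeg ℂ C = 1) (hK : Algebra.trdeg ℂ K = (d + 1 : ℕ)) (hEE : E ≤ E₁)
    (hsup : E₁ ⊔ C = ⊤) (L : Type) [Field L] [Algebra ℂ L] [Algebra L K] [IsScalarTower ℂ L K]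
    [FiniteDimensional L K] (T : Finset E) (hT : Separates L E T) (a : ℕ)
    (hpos : IsPositive d a T) :
    (¬ HasRationalOrEllipticFibres L E₁ → KodairaGe L (d + 1) (a + 1)) ∧
    (HasRationalOrEllipticFibres L E₁ →
      IsCoveredBy (fun Λ F _ _ _ => IsRational Λ F ∨ IsElliptic Λ F) L d) ∧
    (IsCoveredBy (fun Λ F _ _ _ => IsRational Λ F ∨ IsElliptic Λ F) L d →
      ¬ GeneralType ℂ L (d + 1)) ∧
    (a = d → (GeneralType ℂ L (d + 1) ↔
      ¬ IsCoveredBy (fun Λ F _ _ _ => IsRational Λ F ∨ IsElliptic Λ F) L d)) ∧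
    ∀ (M : ℕ) (x : Fin (M + 1) → L), x ≠ 0 → coords ℂ x = ⊤ →
      NoRationalCurve x ∨ BrodyHyperbolic x →
      KodairaGe L (d + 1) a ∧ (¬ IsCoveredBy IsElliptic L d → KodairaGe L (d + 1) (a + 1)) := by
  classical
  have hL : Algebra.trdeg ℂ L = (d + 1 : ℕ) := Y184.NT.trdeg_below (K := K) hK
  have hessL : Algebra.EssFiniteType ℂ L := TH466.QG.ess_below (K := K)
  have hFF : IsFF ℂ C := ⟨N999.SX.ess_any C, hC⟩
  have hset : ∀ z ∈ IntermediateField.adjoin L (E : Set K),
      z ∈ Submodule.span L {z : K | ∃ t : E, (t = 1 ∨ t ∈ T) ∧ (t : K) = z} := by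
    intro z hz
    refine Submodule.span_mono ?_ (hT z hz)
    rintro w (rfl | ⟨t, ht, rfl⟩)
    · exact ⟨1, Or.inl rfl, rfl⟩
    · exact ⟨t, Or.inr ht, rfl⟩
  have h := U192.TF.main (C := C) (L := L) hEE hsup hE hE₁ hK hset (BX := fun _ => False)
    (B := ∅) Set.finite_empty (BL := fun _ => False) (fun P Q e hQ => by
      constructor
      · exact fun h => h.elim
      · rintro (⟨_, _, h, -⟩ | ⟨_, h, -⟩)
        · exact h
        · exact h)
  have h2 := U192.TF.genus (C := C) (L := L) hEE hsup hE hE₁ hK hset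
  have hunir : W619.PL.IsA1Uniruled ℂ L (d + 1) (fun _ => False) →
      W619.PQ.IsUniruled ℂ L (d + 1) := by
    rintro ⟨M, i1, i2, φ, h1, h2, -⟩
    exact ⟨M, i1, i2, h1, h2, ⟨φ⟩⟩
  have hk1 : ∀ a, KodGe ℂ L (d + 1) (fun _ => False) a → KodairaGe L (d + 1) a := by
    rintro a ⟨m, hm, ω, hω, D, hD, hind⟩
    exact ⟨m, hm, ω, fun j => ⟨(hω j).1, fun P hP => (hω j).2.2 P hP id⟩, D, hD, hind⟩
  have hpos' := hpos
  obtain ⟨m, hm, θ, hθ, G, hG, hind⟩ := hpos
  have hkod : ∀ h : (∀ m a : ℕ, 1 ≤ m → ∀ θ : Fin (a + 1) → (Fin d → Derivation ℂ E E) → E,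
      (∀ l, IsPluri m (θ l)) →
      (∀ l, ∀ v : Place ℂ E, Divisorial d v → ∀ G : Fin d → Derivation ℂ E E,
        (∀ i, DerReg v (G i)) → θ l G = 0 ∨ ∀ t : E, (t = 1 ∨ t ∈ T) → t ≠ 0 →
          (0 : ℤ) ≤ v.ord (θ l G) + 2 * m * v.ord t) →
      ∀ G0 : Fin d → Derivation ℂ E E, θ 0 G0 ≠ 0 →
      (AlgebraicIndependent ℂ fun j : Fin a => θ j.succ G0 / θ 0 G0) →
      KodGe ℂ L (d + 1) (fun _ => False) (a + 1)), KodairaGe L (d + 1) (a + 1) := fun h =>
    hk1 _ (h m a hm θ (fun j => (hθ j).1) (fun j => conv (hθ j)) G hG hind)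
  have hka : ¬ W619.PQ.IsUniruled ℂ L (d + 1) → KodairaGe L (d + 1) a := by
    intro hu
    obtain ⟨h1, -⟩ := h.resolve_left fun h => hu (hunir h)
    exact hk1 a (h1 m a hm θ (fun j => (hθ j).1) (fun j v hv G hG => by
      rcases conv (hθ j) v hv G hG with h3 | h3
      · exact Or.inl h3
      · refine Or.inr fun t ht ht0 => ?_
        rw [if_neg id]
        exact h3 t ht ht0) G hG hind)
  have hf1 : ¬ HasRationalOrEllipticFibres L E₁ → KodairaGe L (d + 1) (a + 1) := by
    intro hn
    rcases h2 with ⟨-, -, h3⟩ | h3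
    · exact absurd (fib_of_geo h3) hn
    · exact hkod h3
  have hcov := fun h => cov_of_fib (L := L) hE₁ h
  have hgt : ∀ b, b = d + 1 → KodairaGe L (d + 1) b → GeneralType ℂ L (d + 1) := by
    rintro b rfl ⟨m, hm, ω, hω, D, hD, hind⟩
    exact ⟨hL, m, hm, ω, fun j => (hω j).1, fun P hP j => (hω j).2 P hP, D, hD, hind⟩
  have hnot : IsCoveredBy (fun Λ F _ _ _ => IsRational Λ F ∨ IsElliptic Λ F) L d →
      ¬ GeneralType ℂ L (d + 1) := by
    intro hc hg
    exact N145.SX.not_gt_of_cov1 hL ((cover_iff L d).2 hc) ((N145.SX.kodGe_iff hL).2 hg)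
  refine ⟨hf1, hcov, hnot, fun had => ⟨fun hg hc => hnot hc hg, fun hc => ?_⟩, ?_⟩
  · exact hgt (a + 1) (by rw [had]) (hf1 fun hf => hc (hcov hf))
  · intro M x hx hgen hrat
    have hrat' : NoRationalCurve x := hrat.elim id R882.HY.noRat_of_hyperbolic
    have hu : ¬ W619.PQ.IsUniruled ℂ L (d + 1) := fun hu =>
      R882.HY.not_noRat hL hu hx hgen hrat'
    refine ⟨hka hu, fun hc => hf1 fun hf => ?_⟩
    obtain ⟨Λ, F, i1, i2, i3, i4, i5, i6, i7, i8, h3, h4, ⟨φ⟩⟩ := hcov hf
    rcases h4 with h4 | h4
    · exact hu (uniruled_of_rational hL h3 h4 φ)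
    · exact hc ⟨Λ, F, i1, i2, i3, i4, i5, i6, i7, i8, h3, h4, ⟨φ⟩⟩

end Pool.Agent.Results.MP_1e3e9c_ag.ProductsWithCurves
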