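import Pool.Agent.U951.TR.Mono
import Pool.Agent.Results.MP_1e3e9c_ag.AlmostAllMonomials

/-!
# Hyperbolicity and canonical classes: the degree and the exponents of the monomials from thin sets

Let `I 1, …, I s` be nonempty sets of variables among `x_0, …, x_n`, `r = ∑ (|I i| - 1) ≥ 1` (`fdim I`). A tuple of
monomials `a 1, …, a s` of degree `d`, `a i` in the variables from `I i`, is given by its `r + 1` coordinates: the
degree `d`, and the exponents in `a i` of all the variables from `I i` but one (the pivot). Let `F_0, …, F_r` be
positive multiplicative functions of at most polynomial growth which for each `a ≥ 1` are injective at the powers `q ^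
a` of the large primes and at most `M q ^ a` there; for example the identity, Euler's function or the sum of the
divisors. Let `(r + 1) τ > r + 1 - 2 ^ (-r)`, `0 < τ ≤ 1`, and let each of the sets `S_0, …, S_r` be a set of shifted
primes `q + b_i`, `q ≤ x`, or an interval `(u, u + h]`, `u ≤ x`, `x ^ τ ≤ h ≤ x`.

For all `m` in `S_0 × ⋯ × S_r` but at most `|S_0| ⋯ |S_r| / (log x) ^ U` (any `U`) and for ALL tuples of monomials of
degree `d = F_0(m_0)` with the exponents `F_i(m_i)`: the conditions of the starting result `AlmostAllMonomials`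
(hyperbolicity, big canonical classes of all subvarieties, no ruled subvarieties) are equivalent for ALL projective
varieties given by linear combinations of the monomials `a i` and of the `x_j ^ d`, with the combinatorial criteria
(`Good`). For example this is true for almost all the tuples of monomials whose degree and whose `r` free exponents
are prime numbers, or are in short intervals.

Proof. The number of the exceptional tuples of degree `d` is at most `C d ^ (r - 2 ^ (-r))` (helper449,
`Pool.Agent.U449.BV.saving_typI`, after helper869). The tuples `F_i(m_i)` have density zero or are taken with large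
and uneven multiplicities, so that the size of the exceptional set says nothing about them; they are treated by the
tool `Pool.Agent.U405.RS` of helper405 (a thin set has few multiples of each `n ≤ x^δ`, Rankin's method, fibres over
slabs). `Good` and `good_of_typ` are those of `MonomialsPowerSaving` (helper449).
-/

set_option autoImplicit false

namespace Pool.Agent.Results.MP_1e3e9c_ag.ThinTuples

open MvPolynomial Pool.Agent.W602.GT Pool.Agent.H159R3.GGLLog Pool.Agent.R869.Wd
open Pool.Agent.R505.KA
open Pool.Agent.Y190.PH (Brody)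
open Pool.Agent.Results.MP_1e3e9c_ag.AlmostAllMonomials
open Pool.Agent.U405.RS
open Pool.Agent.U951.TR.Mono (At thin_typI)

/-- The property of the starting result: for all projective varieties `X` given by `m` linear combinations of the monomials `a i` and
of the `x_j ^ d` the conditions in `Equivalent` are equivalent, and `X` and all varieties near `X` are hyperbolic and all closed
subvarieties of `X` of positive dimension have a big canonical class if the coefficient vectors are in general position and the
`I i` are well spread; for hypersurfaces, `LooseCriterion`. -/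
def Good {n s : ℕ} (I : Fin s → Finset (Fin (n + 1))) (d : ℕ) (a : Fin s → (Fin (n + 1) →₀ ℕ)) : Prop :=
  (∀ (m : ℕ) (F : Fin m → MvPolynomial (Fin (n + 1)) ℂ),
    (∀ e, (F e).support ⊆ withPowers d a) → Equivalent F ∧
      (GenCoeffs F (withPowers d a) → (∀ J, Spread I m J) →
        Brody F ∧ HyperbolicNear F ∧ AllSub (fun K _ _ w => GeneralType ℂ K w) F)) ∧
  ∀ F : MvPolynomial (Fin (n + 1)) ℂ, F.support ⊆ withPowers d a → LooseCriterion F

theorem good_of_typ {n s : ℕ} {I : Fin s → Finset (Fin (n + 1))} {d : ℕ} {a : Fin s → (Fin (n + 1) →₀ ℕ)}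
    (hty : TypI I d a) : Good I d a := by
  classical
  obtain ⟨A, hA⟩ := hty.bound
  obtain ⟨s', N, hg⟩ := hty.good
  have heq : ∀ (m : ℕ) (F : Fin m → MvPolynomial (Fin (n + 1)) ℂ),
      (∀ e, (F e).support ⊆ withPowers d a) → Equivalent F := fun m F hFT =>
    main (hg.sys hFT ∅) (hA ℂ m F ∅ hFT).1
  refine ⟨fun m F hFT => ⟨heq m F hFT, fun hgc hsp => ?_⟩, fun F hF => ⟨?_, fun J => ?_⟩⟩
  · have h1 : Equivalent F := heq m F hFT
    have h2 : AllGeneralType F := hty.all hFT hgc hsp
    have h3 : Brody F := (h1.out 0 1).2 h2
    exact ⟨h3, (h1.out 0 6).1 h3, h2⟩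
  · have h1 : Equivalent (fun _ : Fin 1 => F) := heq 1 _ fun _ => hF
    rw [hty.loose_general hF]
    exact h1.out 0 1
  · have hform : ∀ e : Fin 1, IsForm ((fun _ : Fin 1 => F) e) :=
      fun e => (hg.sys (F := fun _ : Fin 1 => F) (fun _ => hF) ∅).form e
    have h1 := hty.crit hF J
    have h2 := hty.critSub hF (U := ∅) (J := J) fun j hj => absurd hj (Set.notMem_empty j)
    tfae_have 1 ↔ 2 := h1.out 0 3
    tfae_have 3 → 1 := by
      rw [h2]
      rintro ⟨K, i1, i2, w, y, hw, hy, hyJ, hgt⟩
      exact ⟨K, i1, i2, w, y, hw, subVar_iff.2 hy, hyJ, fun h3 => hgt ((general_iff y).1 h3)⟩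
    tfae_have 1 → 6 := by
      intro h3
      obtain ⟨x, b, hx, hb, hO⟩ := (h1.out 0 1).1 h3
      obtain ⟨K, i1, i2, y, hy, hr, hyJ⟩ := ruled_of_orbit hform hx hb hO
      exact ⟨K, i1, i2, 1, y, le_rfl, hy, hyJ, hr⟩
    tfae_have 6 → 5 := fun h3 => h3.imp fun K _ _ w hw hr => by
      obtain ⟨C, σ, k1, k2⟩ := hr
      exact not_psef_of hw C k1 k2
    tfae_have 5 → 4 := fun h3 => h3.imp fun K _ _ w hw hp hk => hp (psef_of_kodGe hk)
    tfae_have 4 → 3 := fun h3 => h3.imp fun K _ _ w hw hp hk => hp (kod_of_general hk)
    tfae_finish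

/-- **Theorem.** Let the sets `I i` of variables be nonempty, `r = ∑ (|I i| - 1) ≥ 1`, `piv i ∈ I i`, and let the degree
and the exponents of the other variables be numbered by `e`. For all families `F` of `r + 1` functions in the class
`PM` and all `U`, in the sense of `ThinAll (2 ^ (-r)) F U` (with a saving of `(log x)^U`, for almost all `m` in all
products of `r + 1` sets, each one the set of the shifted primes `q + b_i`, `q ≤ x`, or an interval `(u, u + h]`, `u ≤
x`, `x^τ ≤ h ≤ x`, whenever `0 < τ ≤ 1`, `(r + 1) τ > r + 1 - 2 ^ (-r)`): all `F_i(m_i)` are at least `2` and all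
tuples of monomials with the degree and the exponents `F_i(m_i)` have the property `Good`. Euler's function, the sum
of the divisors and the identity are in the class. -/
theorem result :
    (∀ (n s : ℕ) (I : Fin s → Finset (Fin (n + 1))), (∀ i, (I i).Nonempty) → 1 ≤ fdim I →
      ∀ piv : Fin s → Fin (n + 1), (∀ i, piv i ∈ I i) → ∀ e : Option (Free I piv) ≃ Fin (fdim I + 1),
      ∀ F : Fin (fdim I + 1) → ℕ → ℕ, (∀ i, PM (F i)) → ∀ U : ℕ,
        ThinAll ((1 / 2) ^ fdim I) F U (fun (_ : Unit) w => (∀ i, 2 ≤ w i) ∧ At I piv e (Good I) w)) ∧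
    (PM Nat.totient ∧ PM (fun m => ∑ d ∈ m.divisors, d) ∧ PM (fun m => m)) :=
  ⟨fun _ _ _ hI hF piv _ e _ hPM U => thin_typI hI (fun _ _ h => good_of_typ h) hF piv e hPM U, examplesT⟩

end Pool.Agent.Results.MP_1e3e9c_ag.ThinTuples
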